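import Pool.Agent.R151.T1Z

/-!
# `t₁^Z` on `C(Y,Z)` need not be regular for regular `Z`
-/

namespace Pool.Agent.Results.MP_150402_gt.NotRegular

open Pool.Agent.R151.T1Z

/-- There are a countable Tychonoff space `Y` and a finite discrete (in particular regular) space
`Z` such that the topology `t₁^Z` on `C(Y,Z)` is not regular. -/
theorem result : ∃ (Y Z : Type) (_ : TopologicalSpace Y) (_ : TopologicalSpace Z),
    T2Space Y ∧ CompletelyRegularSpace Y ∧ Countable Y ∧ Finite Z ∧ DiscreteTopology Z ∧
      RegularSpace Z ∧ ¬ @RegularSpace C(Y, Z) (t1Z Y Z) :=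
  ⟨P, Bool, inferInstance, inferInstance, inferInstance, inferInstance, inferInstance,
    inferInstance, inferInstance, inferInstance, not_regular⟩

end Pool.Agent.Results.MP_150402_gt.NotRegular
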